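import Pool.Agent.helper16.EXG.Spec
set_option autoImplicit false
open Finset
namespace Pool.Agent.EXC

theorem GF2_gen (F : Type) [Field F] [Finite F] : ∃ t : F, ∀ u : F, u ≠ 0 → ∃ k : ℕ, u = t ^ k := by
  obtain ⟨g, hg⟩ := IsCyclic.exists_monoid_generator (α := Fˣ)
  refine ⟨(g : F), fun u hu => ?_⟩
  obtain ⟨k, hk⟩ := hg (Units.mk0 u hu)
  refine ⟨k, ?_⟩
  have h1 := congrArg Units.val hk
  rw [Units.val_mk0] at h1
  rw [← h1]
  push_cast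
  rfl

theorem GF2_prd_append {n : ℕ} (C : Matrix (Fin n) (Fin n) ℤ) [IsC C] {F : Type} [Field F] (t : F)
    (P Q : List ((Fin n → ℤ) × Bool)) : prd C t (P ++ Q) = prd C t P * prd C t Q := by
  unfold prd
  rw [List.map_append, List.prod_append]

theorem GF2_prd_mem {n : ℕ} (C : Matrix (Fin n) (Fin n) ℤ) [IsC C] {F : Type} [Field F] (t : F)
    (H : Subgroup (Lm C F ≃ₗ[F] Lm C F)) (hH : ∀ α, ip C α α = 2 → XG C α (1 : F) ∈ H)
    (P : List ((Fin n → ℤ) × Bool)) (hP : ∀ p ∈ P, p.2 = true ∧ ip C p.1 p.1 = 2) : prd C t P ∈ H := by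
  unfold prd
  refine Subgroup.list_prod_mem _ fun x hx => ?_
  obtain ⟨p, hp, rfl⟩ := List.mem_map.1 hx
  obtain ⟨h1, h2⟩ := hP p hp
  rw [h1, if_pos rfl]
  exact hH _ h2

theorem GF2 (hGGN : GGN_stmt) (hGSN : GSN_stmt) (hGYC : GYC_stmt) : GF2_stmt := by
  intro n C _ F _ _ j0 θ δ hE hCt σ y hσ hCT
  have hβ := (f_NBR n C j0 θ δ hE).1
  have hθ := hE.th2
  have hθ' : ip C (-θ) (-θ) = 2 := neg_root C hθ
  obtain ⟨t, ht⟩ := GF2_gen F
  obtain ⟨a, b, g0, h0, hTp, hfm, hg, hh, hy⟩ := hCT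
  have hEXF := f_EXF n C F hβ
  -- the normal form of the pair
  have hT1 : Tp C θ (E C θ : Lm C F) (E C (-θ)) (-2) := by
    have h1 := k_TPR n C F j0 θ δ hE θ (-θ) hθ hθ'
    have h2 : ip C θ (-θ) = -2 := by rw [ip_neg_right, hθ]
    rwa [h2] at h1
  have hT2 : Tp C θ (E C θ : Lm C F) (σ • E C (-θ)) (-2) := by
    have h1 := (f_TPF n C F θ hθ hβ _ _ _ hT1).2.2.2.1 1 σ one_ne_zero hσ
    rwa [one_smul] at h1
  have hf2 : fm C (E C θ : Lm C F) (σ • E C (-θ)) = σ := by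
    rw [fm_smul_right, fm_E_E C hθ hθ', if_pos rfl, mul_one]
  obtain ⟨k, hk, hka, hkb⟩ := k_CNJ n C F j0 θ δ hE a b (E C θ) (σ • E C (-θ)) (-2) (Or.inl rfl) hTp hT2
    (by rw [hfm, hf2])
  obtain ⟨hExa, hExb, -⟩ := f_TPF n C F θ hθ hβ a b (-2) hTp
  have hka2 := (hEXF.2.2.1 a hExa).2.2.2.2.2.2.2.1 k hk 1 g0 hg
  have hkb2 := (hEXF.2.2.1 b hExb).2.2.2.2.2.2.2.1 k hk 1 h0 hh
  rw [hka] at hka2
  rw [hkb] at hkb2
  have h1 : k * g0 * k⁻¹ = XG C θ 1 := by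
    apply LinearEquiv.ext
    intro v
    rw [hka2 v, (k_XGS n C F hβ θ hθ 1).1 v]
  have h2 : k * h0 * k⁻¹ = XG C (-θ) σ := by
    apply LinearEquiv.ext
    intro v
    have hX := (hEXF.2.2.1 _ (hEXF.2.1 (-θ) hθ')).1
    rw [hkb2 v, ((f_XAU n C F _ hX).2.2.2 σ).2 1 v, mul_one, (k_XGS n C F hβ (-θ) hθ' σ).1 v]
  have hY : k * (y : Lm C F ≃ₗ[F] Lm C F) * k⁻¹ = XG C θ 1 * XG C (-θ) σ := by
    rw [hy, ← h1, ← h2]
    group
  obtain ⟨PL, hlen, hOk, ⟨P₁, P₂, v, hPv, hv, hP12⟩, hCg⟩ := hCt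
  have hYC := fun l hl => hGYC n C F hβ θ hθ σ t hσ l (hOk l hl)
  have hYC2 : ∀ i : Fin 4, ∃ h ∈ GE C F, (XG C θ 1 * XG C (-θ) σ) * h * (XG C θ 1 * XG C (-θ) σ)⁻¹ * h⁻¹ =
      prd C t (PL.get (i.cast hlen.symm)) := fun i => (hYC _ (List.get_mem PL _)).2
  choose h hhG hhP using hYC2
  obtain ⟨g, hgdef⟩ : ∃ g : Fin 5 → EG C F, g = Fin.cons (⟨k, hk⟩ : EG C F)
      (fun i : Fin 4 => (⟨h i * k, mul_mem (hhG i) hk⟩ : EG C F)) := ⟨_, rfl⟩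
  have hg0 : ((g 0 : EG C F) : Lm C F ≃ₗ[F] Lm C F) = k := by rw [hgdef]; rfl
  have hgs : ∀ i : Fin 4, ((g i.succ : EG C F) : Lm C F ≃ₗ[F] Lm C F) = h i * k := by
    intro i; rw [hgdef]; rfl
  refine ⟨g, ?_⟩
  have hmem : ∀ i, ((g i * y * (g i)⁻¹ : EG C F) : Lm C F ≃ₗ[F] Lm C F) ∈
      (Subgroup.closure (Set.range fun i => g i * y * (g i)⁻¹)).map (GE C F).subtype := fun i =>
    ⟨_, Subgroup.subset_closure ⟨i, rfl⟩, rfl⟩
  generalize hH' : Subgroup.closure (Set.range fun i => g i * y * (g i)⁻¹) = H' at hmem ⊢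
  have hYH : XG C θ 1 * XG C (-θ) σ ∈ H'.map (GE C F).subtype := by
    have h3 := hmem 0
    rw [← hY]
    have h4 : ((g 0 * y * (g 0)⁻¹ : EG C F) : Lm C F ≃ₗ[F] Lm C F) = k * (y : Lm C F ≃ₗ[F] Lm C F) * k⁻¹ := by
      rw [Subgroup.coe_mul, Subgroup.coe_mul, Subgroup.coe_inv, hg0]
    rwa [h4] at h3
  have hPH : ∀ P ∈ PL, prd C t P ∈ H'.map (GE C F).subtype := by
    intro P hP
    obtain ⟨i, hi⟩ := List.get_of_mem hP
    have h5 := hhP (i.cast hlen)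
    have h6 : (i.cast hlen).cast hlen.symm = i := by ext; rfl
    rw [h6, hi] at h5
    rw [← h5]
    have h7 := hmem (i.cast hlen).succ
    have h8 : ((g (i.cast hlen).succ * y * (g (i.cast hlen).succ)⁻¹ : EG C F) : Lm C F ≃ₗ[F] Lm C F) =
        h (i.cast hlen) * (XG C θ 1 * XG C (-θ) σ) * (h (i.cast hlen))⁻¹ := by
      rw [Subgroup.coe_mul, Subgroup.coe_mul, Subgroup.coe_inv, hgs, ← hY]
      group
    rw [h8] at h7
    have h9 := mul_mem hYH (inv_mem h7)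
    have h10 : XG C θ 1 * XG C (-θ) σ * (h (i.cast hlen) * (XG C θ 1 * XG C (-θ) σ) * (h (i.cast hlen))⁻¹)⁻¹ =
        XG C θ 1 * XG C (-θ) σ * h (i.cast hlen) * (XG C θ 1 * XG C (-θ) σ)⁻¹ * (h (i.cast hlen))⁻¹ := by
      group
    rwa [h10] at h9
  have hS := hGSN n C F hβ PL [θ] t (H'.map (GE C F).subtype) (fun P hP p hp => (hYC P hP).1 p hp) hPH
    (fun a ha => by
      rw [List.mem_singleton] at ha
      rw [ha]
      exact ⟨hθ, σ, hYH⟩)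
  obtain ⟨hG1, hG2⟩ := hGGN n C F j0 θ δ hE (H'.map (GE C F).subtype)
    (fun i => ⟨(hS _ (hCg i).1).2, (hS _ (hCg i).2).2⟩)
  have hvt : XG C v t ∈ H'.map (GE C F).subtype := by
    have h11 := hPH _ hPv
    have h12 := GF2_prd_mem C t _ hG1 P₁ (fun p hp => hP12 p (List.mem_append_left _ hp))
    have h13 := GF2_prd_mem C t _ hG1 P₂ (fun p hp => hP12 p (List.mem_append_right _ hp))
    have h14 : prd C t (P₁ ++ (v, false) :: P₂) = prd C t P₁ * (XG C v t * prd C t P₂) := by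
      rw [GF2_prd_append]
      rfl
    rw [h14] at h11
    have h15 := mul_mem (mul_mem (inv_mem h12) h11) (inv_mem h13)
    have h16 : (prd C t P₁)⁻¹ * (prd C t P₁ * (XG C v t * prd C t P₂)) * (prd C t P₂)⁻¹ = XG C v t := by group
    rwa [h16] at h15
  have hfin := hG2 v t hv hvt ht
  rw [eq_top_iff]
  intro x _
  obtain ⟨x', hx', hxx⟩ := hfin x.2
  have h17 : x' = x := Subtype.ext hxx
  rw [← h17]
  exact hx'

end Pool.Agent.EXC
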